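import Pool.Agent.Helper51.RB.Final

/-!
# The ball maximises the first Robin eigenvalue for small negative boundary parameters

For every dimension `n ≥ 2` and every radius `R > 0` there is `α₀ < 0` such that, for every
`α ∈ (α₀, 0)`, the ball of radius `R` maximises the first Robin eigenvalue with boundary parameter
`α` among all bounded open sets of the same volume (which have a surface measure and a unit normal
satisfying the divergence theorem, in particular among all bounded Lipschitz domains).

The proof uses the Brenier potential `Φ` from `Ω` to the ball (constructed here by duality) and the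
test function `F(Φ)`, where `F(|x|²/2)` is the eigenfunction of the ball.
-/

set_option autoImplicit false

open MeasureTheory

namespace Pool.Agent.Results.MP_1c91dc_an.BallSmallAlpha

open RB in
/-- Part (i) of the conjecture for all small negative `α`, in every dimension `n ≥ 2`. The number
`l` is the first Robin eigenvalue of the ball of radius `R`. -/
theorem result :
    ∀ n : ℕ, 2 ≤ n → ∀ R : ℝ, 0 < R → ∃ α₀ : ℝ, α₀ < 0 ∧ ∀ α : ℝ, α₀ < α → α < 0 →
      (∃ (σB : Measure (E n)) (νB : E n → E n), GaussGreen (Metric.ball 0 R) σB νB) ∧
      ∃ l : ℝ,
        (∀ (σB : Measure (E n)) (νB : E n → E n), GaussGreen (Metric.ball 0 R) σB νB →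
          robin α (Metric.ball 0 R) σB = (l : EReal)) ∧
        ∀ (Ω : Set (E n)) (σ : Measure (E n)) (ν : E n → E n), IsOpen Ω →
          Bornology.IsBounded Ω → GaussGreen Ω σ ν →
          volume Ω = volume (Metric.ball (0 : E n) R) →
          robin α Ω σ ≤ (l : EReal) := by
  intro n hn R hR
  exact ball_theorem hn hR

end Pool.Agent.Results.MP_1c91dc_an.BallSmallAlpha
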