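import Pool.Agent.Helper61.RS.Final2

/-!
Balls versus spherical shells for the first Robin eigenvalue with a negative parameter, in every
dimension `n ≥ 2`: the statement of Q1 for the competition among balls and spherical shells.

Definitions (files `Pool/Agent/Helper61/RS/Defs.lean` and `Pool/Agent/Helper61/RS/Final.lean`):
`dom n s r` is the ball of radius `r` (for `s = 0`) or the shell with radii `s < r`;
`robin n α s r` is its first Robin eigenvalue with parameter `α`, the infimum of the Rayleigh
quotient over the `C^1` functions on the whole space; `Comp n V s r` says that `(s, r)` are the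
radii of a ball or shell of volume `V`; `IsMaximiser n V α s r` says that this ball or shell
maximises the eigenvalue among all balls and shells of volume `V`.
-/

set_option autoImplicit false

namespace Pool.Agent.Results.MP_1c91dc_an.RadialSwitch

open Pool.Agent.Helper61.RS

/-- In dimension `n ≥ 2`:
(A) the eigenvalue curves `α ↦ robin n α s r`, `α < 0`, of any two balls or shells with different
inner radii `s < t` cross at most once (no relation between the volumes is assumed);
(B) for every volume `V > 0` there is exactly one switch `β < 0`:
1. for `β < α < 0` the ball is the unique maximiser;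
2. at `β` the ball and a shell are maximisers, and the inner radii of all maximisers for `α < β`
   are larger than that of this shell;
3. for `α < β` there is a maximiser (a shell by 2);
4. both radii of maximising shells strictly increase as `α` decreases below `β`;
5. for all but countably many `α < β` the maximiser is unique;
6. the inner radius of the maximisers tends to infinity as `α → -∞`. -/
theorem result {n : ℕ} (hn : 2 ≤ n) :
    (∀ s r t q α α' : ℝ, 0 ≤ s → s < t → s < r → t < q → α < 0 → α' < α →
      robin n α s r ≤ robin n α t q → robin n α' s r < robin n α' t q) ∧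
    ∀ V : ℝ, 0 < V → ∃ β, β < 0 ∧
      (∀ α, β < α → α < 0 → ∀ s r, IsMaximiser n V α s r ↔ s = 0 ∧ Comp n V s r) ∧
      (∃ s₀, 0 < s₀ ∧ (∃ r, IsMaximiser n V β 0 r) ∧ (∃ r, IsMaximiser n V β s₀ r) ∧
        ∀ α, α < β → ∀ s r, IsMaximiser n V α s r → s₀ < s) ∧
      (∀ α, α < β → ∃ s r, IsMaximiser n V α s r) ∧
      (∀ α α' s r s' r', α' < α → α < β → IsMaximiser n V α s r → IsMaximiser n V α' s' r' →
        s < s' ∧ r < r') ∧
      {α | α < β ∧ ∃ s r s' r', IsMaximiser n V α s r ∧ IsMaximiser n V α s' r' ∧
        s ≠ s'}.Countable ∧
      (∀ S, ∃ γ, γ < β ∧ ∀ α, α < γ → ∀ s r, IsMaximiser n V α s r → S < s) :=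
  ⟨fun _ _ _ _ _ _ hs hst hsr htq hα hαα h => crossing_result hn hs hst hsr htq hα hαα h,
    fun _ hV => main_full hn hV⟩

end Pool.Agent.Results.MP_1c91dc_an.RadialSwitch
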