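import Pool.Agent.Helper49.RO.Final
import Pool.Agent.Helper49.RO.SobolevAll

/-!
# The first Robin eigenvalue for very negative boundary parameters, over all domains

Among all bounded open sets of volume `V` (with a surface measure and a unit normal satisfying the
divergence theorem), the largest first Robin eigenvalue with boundary parameter `-a` is
`-a² - Θ(Ψ)` with `Ψ = (a^(n-2) log(a^n V)/V)^(1/(n-1))`, uniformly for `a^n V ≥ C`.  Spherical
shells reach this order, and every set which reaches it has a large circumradius.

The proof of the upper bound tests the Robin quotient with plane waves and with the square root of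
their mean `ρ` over all directions, and uses the divergence theorem for fields `Φ(ρ) ∇ρ/ρ` and the
sharp `L¹` Sobolev inequality on linearly stretched copies of the domain.
-/

set_option autoImplicit false

open MeasureTheory

namespace Pool.Agent.Results.MP_1c91dc_an.RobinOrder

open RB RO in
/-- The order of the second term of the largest first Robin eigenvalue, as `a^n V → ∞`; shells
are optimal up to a constant in the second term; near maximisers spread out. -/
theorem result :
    ∀ n : ℕ, 2 ≤ n → ∃ c C : ℝ, 0 < c ∧ 0 < C ∧
      ∀ V a : ℝ, 0 < V → 0 < a → C ≤ a ^ n * V →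
      (∀ (Ω : Set (E n)) (σ : Measure (E n)) (ν : E n → E n), IsOpen Ω →
        Bornology.IsBounded Ω → volume.real Ω = V → GaussGreen Ω σ ν →
        robin (-a) Ω σ ≤ ((-a ^ 2 - c * Psi n a V : ℝ) : EReal)) ∧
      (∃ r t : ℝ, 0 < r ∧ r < t ∧ volume.real (shell n r t) = V ∧
        (∃ (σ : Measure (E n)) (ν : E n → E n), GaussGreen (shell n r t) σ ν) ∧
        ∀ (σ : Measure (E n)) (ν : E n → E n), GaussGreen (shell n r t) σ ν →
          ((-a ^ 2 - C * Psi n a V : ℝ) : EReal) ≤ robin (-a) (shell n r t) σ) ∧
      (∀ (Ω : Set (E n)) (σ : Measure (E n)) (ν : E n → E n), IsOpen Ω →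
        Bornology.IsBounded Ω → volume.real Ω = V → GaussGreen Ω σ ν →
        ((-a ^ 2 - C * Psi n a V : ℝ) : EReal) ≤ robin (-a) Ω σ →
        ∀ (x₀ : E n) (R : ℝ), Ω ⊆ Metric.ball x₀ R → c * Rad n a V ≤ R) := by
  intro n hn
  exact final n hn (sobolev_all n hn)

end Pool.Agent.Results.MP_1c91dc_an.RobinOrder
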